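import Pool.Agent.W977.SM.Main

/-!
# One-pass streaming algorithms for maximum submodular matching need quadratic space for every
approximation factor below 2

First part: for every `α < 2` and every `η > 0` there is `c > 0` such that, for all large `n`, every
randomized one-pass algorithm with at most `c n²` bits of memory has a stream (the edges of a simple
graph on `n` vertices) and a monotone submodular function `f` with `f ∅ = 0` for which it outputs
a matching `M` of the graph with `α f(M) ≥ max f(M')` with probability at most `η`. Second part: in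
particular no algorithm with `C n (log n) ^ k` bits computes an `α`-approximation.

The memory may be updated with any computation and any number of oracle calls for sets of edges
that have arrived; the graph need not be remembered.

The proof: the graph consists of `p` bipartite graphs that arrive one after the other (phases).
In each of them there is a hidden matching, one of `N` disjoint ones (the diagonals), and `N²`
random bits tell which of two possible edges is present in each place. For each left vertex `u` the
function `f` measures the part of `p` pieces that is covered: the hidden edge of phase `i` covers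
the piece `i`, each other edge of phase `i` covers a share `1 / (p - i)` of each of the pieces
`i, ..., p - 1` (as independent random subsets would). During phase `i` all edges look the same, so
that few of the hidden edges are still known at the end; a matching without hidden edges
has value `N (p + 1) / 2`, and the hidden edges of all phases together have value `N p`.
-/

namespace Pool.Agent.Results.MP_eef58c_lc.SubmodularMatching

open Pool.Agent.W977.SM

theorem result :
    (∀ α η : ℝ, 1 ≤ α → α < 2 → 0 < η → ∃ c : ℝ, 0 < c ∧ ∃ n₀ : ℕ, ∀ n b : ℕ, n₀ ≤ n →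
      (b : ℝ) ≤ c * n ^ 2 → ∀ (Ω : Type) [Fintype Ω] (μ : Ω → ℝ), (∀ ω, 0 ≤ μ ω) →
        ∑ ω, μ ω = 1 → ∀ A : Alg (Fin n) Ω b, A.Legal →
          ∃ (h : List (Sym2 (Fin n))) (f : Finset (Sym2 (Fin n)) → ℝ), IsStream h ∧ MonoSub f ∧
            prob μ (fun ω => Success α f h (A.output ω f h)) ≤ η) ∧
    (∀ α : ℝ, 1 ≤ α → α < 2 → ∀ (C : ℝ) (k : ℕ), ∃ n₀ : ℕ, ∀ n b : ℕ, n₀ ≤ n →
      (b : ℝ) ≤ C * n * Real.log n ^ k → ∀ (Ω : Type) [Fintype Ω] (μ : Ω → ℝ), (∀ ω, 0 ≤ μ ω) →
        ∑ ω, μ ω = 1 → ∀ A : Alg (Fin n) Ω b, A.Legal → ¬ Approximates μ A α) := by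
  refine ⟨fun α η h1 h2 h3 => lower_bound h1 h2 h3, ?_⟩
  intro α h1 h2 C k
  obtain ⟨c, hc, n₀, h⟩ := lower_bound (η := 1 / 2) h1 h2 (by norm_num)
  have hlog := (Real.isLittleO_pow_log_id_atTop (n := k)).bound
    (show 0 < c / (|C| + 1) by positivity)
  obtain ⟨n₁, hn₁⟩ := Filter.eventually_atTop.1 (tendsto_natCast_atTop_atTop.eventually hlog)
  refine ⟨max n₀ (max n₁ 1), fun n b hn hb Ω _ μ hμ0 hμ1 A hA happ => ?_⟩
  have hn1 : n₀ ≤ n := (le_max_left _ _).trans hn
  have hn2 : n₁ ≤ n := ((le_max_left _ _).trans (le_max_right _ _)).trans hn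
  have hn3 : 1 ≤ n := ((le_max_right _ _).trans (le_max_right _ _)).trans hn
  have hn4 : (0 : ℝ) < n := by exact_mod_cast hn3
  have h4 := hn₁ n hn2
  simp only [Real.norm_eq_abs, id_eq] at h4
  rw [abs_of_pos hn4] at h4
  have hb' : (b : ℝ) ≤ c * n ^ 2 := by
    calc (b : ℝ) ≤ C * n * Real.log n ^ k := hb
      _ ≤ |C * n * Real.log n ^ k| := le_abs_self _
      _ = |C| * n * |Real.log n ^ k| := by rw [abs_mul, abs_mul, abs_of_pos hn4]
      _ ≤ |C| * n * (c / (|C| + 1) * n) := by gcongr
      _ = (|C| / (|C| + 1)) * (c * n ^ 2) := by ring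
      _ ≤ 1 * (c * n ^ 2) := by
          refine mul_le_mul_of_nonneg_right ?_ (by positivity)
          rw [div_le_one (by positivity)]
          linarith
      _ = c * n ^ 2 := one_mul _
  obtain ⟨s, f, hs, hf, hpr⟩ := h n b hn1 hb' Ω μ hμ0 hμ1 A hA
  have := happ s f hs hf
  linarith

end Pool.Agent.Results.MP_eef58c_lc.SubmodularMatching
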